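import Pool.Agent.H187R3.LVBrody

/-!
The varieties `XN n` of dimension `n`: the analytic part, the pointed maps, hyperbolicity.
-/

set_option autoImplicit false

open AlgebraicGeometry CategoryTheory Topology

namespace Pool.Agent.Y823.LV

open Pool.Agent.H187R3.LV Pool.Agent.H187R3

variable {n : ℕ}

/-- The values of the linear forms `xᵢ` (for `i = j`) and `xᵢ - xⱼ` (for `i ≠ j`). -/
def lv {K : Type} [CommRing K] (a : Fin n → K) (i j : Fin n) : K := a i - if i = j then 0 else a j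

/-- The product of all the forms. -/
def pv {K : Type} [CommRing K] (a : Fin n → K) : K := ∏ i, ∏ j, lv a i j

/-- The product of the `xᵢ² - 1`. -/
def qv {K : Type} [CommRing K] (a : Fin n → K) : K := ∏ i, (a i ^ 2 - 1)

lemma map_lv {K K' : Type} [CommRing K] [CommRing K'] (g : K →+* K') (a : Fin n → K)
    (i j : Fin n) : g (lv a i j) = lv (fun i => g (a i)) i j := by
  unfold lv
  rw [map_sub]
  split_ifs <;> simp

lemma map_pv {K K' : Type} [CommRing K] [CommRing K'] (g : K →+* K') (a : Fin n → K) :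
    g (pv a) = pv (fun i => g (a i)) := by
  unfold pv
  simp only [map_prod, map_lv]

lemma map_qv {K K' : Type} [CommRing K] [CommRing K'] (g : K →+* K') (a : Fin n → K) :
    g (qv a) = qv (fun i => g (a i)) := by
  unfold qv
  simp only [map_prod, map_sub, map_pow, map_one]

lemma lv_mul {K : Type} [CommRing K] (a : Fin n → K) (z : K) (i j : Fin n) :
    lv (fun i => a i * z) i j = lv a i j * z := by
  unfold lv
  split_ifs <;> ring

lemma pv_mul {K : Type} [CommRing K] (a : Fin n → K) (z : K) :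
    pv (fun i => a i * z) = pv a * z ^ (n * n) := by
  unfold pv
  simp only [lv_mul, Finset.prod_mul_distrib, Finset.prod_const, Finset.card_univ,
    Fintype.card_fin, ← pow_mul]

lemma pv_ne {a : Fin n → ℂ} (h : pv a ≠ 0) (i j : Fin n) : lv a i j ≠ 0 := by
  intro h0
  apply h
  unfold pv
  apply Finset.prod_eq_zero (Finset.mem_univ i)
  exact Finset.prod_eq_zero (Finset.mem_univ j) h0

lemma qv_ne {a : Fin n → ℂ} (h : qv a ≠ 0) (i : Fin n) : a i ^ 2 ≠ 1 := by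
  intro h0
  apply h
  unfold qv
  exact Finset.prod_eq_zero (Finset.mem_univ i) (by rw [h0, sub_self])

lemma ne_zero_of_pv {a : Fin n → ℂ} (h : pv a ≠ 0) (i : Fin n) : a i ≠ 0 := by
  have := pv_ne h i i
  simpa [lv] using this

lemma ne_of_pv {a : Fin n → ℂ} (h : pv a ≠ 0) {i j : Fin n} (hij : i ≠ j) : a i ≠ a j := by
  have := pv_ne h i j
  simpa [lv, hij, sub_eq_zero] using this

/-- An entire map to `{P² ≠ 1} ∩ ({P ≠ 0} ∪ {Q ≠ 0})` is constant. -/
theorem const_of_avoid_n (a : ℂ → Fin n → ℂ) (ha : ∀ i, Differentiable ℂ (fun t => a t i))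
    (h1 : ∀ t, pv (a t) ^ 2 ≠ 1) (h2 : ∀ t, pv (a t) ≠ 0 ∨ qv (a t) ≠ 0) (s t : ℂ) :
    a s = a t := by
  have hP : Differentiable ℂ (fun t => pv (a t)) := by
    unfold pv
    refine Differentiable.fun_finsetProd fun i _ => Differentiable.fun_finsetProd fun j _ => ?_
    unfold lv
    refine (ha i).sub ?_
    split_ifs
    · exact differentiable_const _
    · exact ha j
  have hc := fun s t => const_of_sq_ne_one hP h1 s t
  by_cases h0 : pv (a 0) = 0
  · have hz : ∀ t, pv (a t) = 0 := fun t => (hc t 0).trans h0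
    funext i
    refine const_of_sq_ne_one (ha i) (fun t => ?_) s t
    exact qv_ne ((h2 t).resolve_left fun h => h (hz t)) i
  · have hne : ∀ t, pv (a t) ≠ 0 := fun t h => h0 (by rw [hc 0 t]; exact h)
    funext i
    -- the ratios
    have hk : ∀ j t, a t j = a 0 j / a 0 i * a t i := by
      intro j t
      by_cases hij : j = i
      · subst hij
        rw [div_self (ne_zero_of_pv (hne 0) j), one_mul]
      · have hq : Differentiable ℂ (fun t => a t j / a t i) :=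
          (ha j).div (ha i) fun t => ne_zero_of_pv (hne t) i
        have hk := little_picard hq (a := 0) (b := 1) (by norm_num)
          (fun z => div_ne_zero (ne_zero_of_pv (hne z) j) (ne_zero_of_pv (hne z) i))
          (fun z h => by
            rw [div_eq_one_iff_eq (ne_zero_of_pv (hne z) i)] at h
            exact ne_of_pv (hne z) hij h) t 0
        rw [← hk]
        rw [div_mul_cancel₀ _ (ne_zero_of_pv (hne t) i)]
    have hpw : ∀ t, a t i ^ (n * n) = a 0 i ^ (n * n) := by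
      intro t
      set k : Fin n → ℂ := fun j => a 0 j / a 0 i with hkd
      have e1 : pv (a t) = pv k * a t i ^ (n * n) := by
        rw [← pv_mul]
        congr 1
        funext j
        exact hk j t
      have e2 : pv (a 0) = pv k * a 0 i ^ (n * n) := by
        rw [← pv_mul]
        congr 1
        funext j
        exact hk j 0
      have e3 : pv k ≠ 0 := by
        intro h
        apply h0
        rw [e2, h, zero_mul]
      have e4 := hc t 0
      rw [e1, e2] at e4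
      exact mul_left_cancel₀ e3 e4
    have hnn : n * n ≠ 0 := by
      have : 0 < n := lt_of_le_of_lt (Nat.zero_le _) i.2
      positivity
    have hwb : Bornology.IsBounded (Set.range fun t => a t i) := by
      refine (isBounded_iff_forall_norm_le).2 ⟨‖a 0 i‖, ?_⟩
      rintro _ ⟨x, rfl⟩
      have := congrArg norm (hpw x)
      rw [norm_pow, norm_pow] at this
      exact ((pow_left_inj₀ (norm_nonneg _) (norm_nonneg _) hnn).1 this).le
    exact (ha i).apply_eq_apply_of_bounded hwb s t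

/-! ### Points of open subschemes of affine space -/

section points

variable {m : ℕ} {U : (AA m).Opens}

/-- The ring map of a `ℂ`-point. -/
noncomputable def ev (x : SpecC ⟶ U.toScheme) : RR m →+* ℂ := (Spec.preimage (x ≫ U.ι)).hom

lemma map_ev (x : SpecC ⟶ U.toScheme) : Spec.map (CommRingCat.ofHom (ev x)) = x ≫ U.ι := by
  unfold ev
  exact Spec.map_preimage _

lemma ev_C (x : SpecC ⟶ U.toScheme) (hx : x ≫ (U.ι ≫ aa m) = 𝟙 SpecC) (c : ℂ) :
    ev x (MvPolynomial.C c) = c := by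
  rw [← Category.assoc, ← map_ev] at hx
  unfold aa at hx
  rw [← Spec.map_comp, ← Spec.map_id] at hx
  have h1 := Spec.map_injective hx
  have h2 := congrArg (fun g : CommRingCat.of ℂ ⟶ CommRingCat.of ℂ => g.hom c) h1
  simpa [MvPolynomial.algebraMap_eq] using h2

/-- The coordinates of a `ℂ`-point. -/
noncomputable def co (x : SpecC ⟶ U.toScheme) : Fin m → ℂ := fun i => ev x (MvPolynomial.X i)

lemma ev_eq (x : SpecC ⟶ U.toScheme) (hx : x ≫ (U.ι ≫ aa m) = 𝟙 SpecC) :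
    ev x = MvPolynomial.eval (co x) := by
  apply MvPolynomial.ringHom_ext
  · intro c
    rw [ev_C x hx, MvPolynomial.eval_C]
  · intro i
    rw [MvPolynomial.eval_X]
    rfl

lemma pt_eq (x : SpecC ⟶ U.toScheme) (hx : x ≫ (U.ι ≫ aa m) = 𝟙 SpecC) :
    x ≫ U.ι = ptA (co x) := by
  rw [← map_ev, ev_eq x hx]
  rfl

/-- A regular function on `U` coming from a polynomial. -/
noncomputable def secU (U : (AA m).Opens) (F : RR m) : Γ(U.toScheme, ⊤) :=
  (U.ι.appTop).hom ((Scheme.ΓSpecIso (CommRingCat.of (RR m))).inv.hom F)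

lemma valueAt_secU (x : SpecC ⟶ U.toScheme) (h : ⊤ ≤ x ⁻¹ᵁ (⊤ : U.toScheme.Opens)) (F : RR m) :
    valueAt x h (secU U F) = ev x F := by
  unfold valueAt secU
  have h1 : x.appLE ⊤ ⊤ h = x.appTop := Scheme.Hom.appLE_eq_app x
  have h2 : (Scheme.ΓSpecIso (CommRingCat.of (RR m))).inv ≫ U.ι.appTop ≫ x.appTop ≫
      (Scheme.ΓSpecIso (CommRingCat.of ℂ)).hom = CommRingCat.ofHom (ev x) := by
    rw [← Category.assoc U.ι.appTop, ← Scheme.Hom.comp_appTop, ← map_ev,
      Scheme.ΓSpecIso_naturality, Iso.inv_hom_id_assoc]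
  rw [h1]
  exact congrArg (fun g : CommRingCat.of (RR m) ⟶ CommRingCat.of ℂ => g.hom F) h2

lemma mem_ptA (a : Fin m → ℂ) (y : SpecC) (F : RR m) :
    F ∈ ((ptA a) y).asIdeal ↔ MvPolynomial.eval a F = 0 := by
  unfold ptA
  rw [mem_specMap, mem_pt]

end points

/-! ### The variety and the curve -/

/-- The polynomial `P`. -/
noncomputable def PN (n : ℕ) : RR n := pv (fun i => MvPolynomial.X i)

/-- The polynomial `Q`. -/
noncomputable def QN (n : ℕ) : RR n := qv (fun i => MvPolynomial.X i)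

/-- The variety `{P² ≠ 1} ∩ ({P ≠ 0} ∪ {Q ≠ 0})` in affine `n`-space. -/
noncomputable def XN (n : ℕ) : (AA n).Opens :=
  PrimeSpectrum.basicOpen (PN n ^ 2 - 1) ⊓
    (PrimeSpectrum.basicOpen (PN n) ⊔ PrimeSpectrum.basicOpen (QN n))

/-- The curve `{z^(2n²) ≠ 1}` in the affine line. -/
noncomputable def CN (n : ℕ) : (AA 1).Opens :=
  PrimeSpectrum.basicOpen ((MvPolynomial.X 0 : RR 1) ^ (2 * (n * n)) - 1)

lemma mem_CN (y : AA 1) : y ∈ CN n ↔ (MvPolynomial.X 0 : RR 1) ^ (2 * (n * n)) - 1 ∉ y.asIdeal :=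
  Iff.rfl

lemma mem_XN (y : AA n) : y ∈ XN n ↔
    PN n ^ 2 - 1 ∉ y.asIdeal ∧ (PN n ∉ y.asIdeal ∨ QN n ∉ y.asIdeal) :=
  Iff.rfl

/-- A point of the curve. -/
noncomputable def ptCN (z : ℂ) (hz : z ^ (2 * (n * n)) ≠ 1) : SpecC ⟶ (CN n).toScheme :=
  IsOpenImmersion.lift (CN n).ι (ptA fun _ => z) (by
    rintro _ ⟨y, rfl⟩
    rw [Scheme.Opens.range_ι]
    show _ ∈ CN n
    rw [mem_CN, mem_ptA]
    simpa [sub_eq_zero] using hz)

lemma ptCN_ι (z : ℂ) (hz : z ^ (2 * (n * n)) ≠ 1) :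
    ptCN z hz ≫ (CN n).ι = ptA fun _ => z :=
  IsOpenImmersion.lift_fac _ _ _

/-- A point of the variety. -/
noncomputable def ptXN (a : Fin n → ℂ) (h1 : pv a ^ 2 ≠ 1) (h2 : pv a ≠ 0 ∨ qv a ≠ 0) :
    SpecC ⟶ (XN n).toScheme :=
  IsOpenImmersion.lift (XN n).ι (ptA a) (by
    rintro _ ⟨y, rfl⟩
    rw [Scheme.Opens.range_ι]
    show _ ∈ XN n
    rw [mem_XN, mem_ptA, mem_ptA, mem_ptA]
    simp only [PN, QN, map_sub, map_pow, map_one, map_pv, map_qv, MvPolynomial.eval_X]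
    exact ⟨fun h => h1 (sub_eq_zero.1 h), h2⟩)

lemma ptXN_ι (a : Fin n → ℂ) (h1 : pv a ^ 2 ≠ 1) (h2 : pv a ≠ 0 ∨ qv a ≠ 0) :
    ptXN a h1 h2 ≫ (XN n).ι = ptA a :=
  IsOpenImmersion.lift_fac _ _ _

lemma pv_zero (hn : 2 ≤ n) : pv (fun _ : Fin n => (0 : ℂ)) = 0 := by
  unfold pv
  apply Finset.prod_eq_zero (Finset.mem_univ (⟨0, by omega⟩ : Fin n))
  apply Finset.prod_eq_zero (Finset.mem_univ (⟨0, by omega⟩ : Fin n))
  simp [lv]

lemma qv_zero : qv (fun _ : Fin n => (0 : ℂ)) ≠ 0 := by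
  unfold qv
  simp

/-- The origin of the variety. -/
noncomputable def originN (hn : 2 ≤ n) : SpecC ⟶ (XN n).toScheme :=
  ptXN (fun _ => 0) (by rw [pv_zero hn]; norm_num) (Or.inr qv_zero)

lemma originN_ι (hn : 2 ≤ n) : originN hn ≫ (XN n).ι = ptA fun _ => 0 := ptXN_ι _ _ _

/-- The linear map `z ↦ z v` on rings. -/
noncomputable def linN (v : Fin n → ℂ) : RR n →+* RR 1 :=
  (MvPolynomial.aeval (fun i => MvPolynomial.C (v i) * MvPolynomial.X 0) : RR n →ₐ[ℂ] RR 1).toRingHom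

lemma linN_X (v : Fin n → ℂ) (i : Fin n) :
    linN v (MvPolynomial.X i) = MvPolynomial.C (v i) * MvPolynomial.X 0 := by simp [linN]

lemma linN_C (v : Fin n → ℂ) (c : ℂ) : linN v (MvPolynomial.C c) = MvPolynomial.C c := by
  simp [linN]

lemma linN_P (v : Fin n → ℂ) (hv : pv v = 1) :
    linN v (PN n) = MvPolynomial.X 0 ^ (n * n) := by
  unfold PN
  rw [map_pv]
  simp only [linN_X]
  rw [pv_mul, ← map_pv (MvPolynomial.C : ℂ →+* RR 1), hv, map_one, one_mul]

lemma linN_Q (v : Fin n → ℂ) :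
    linN v (QN n) = ∏ i, ((MvPolynomial.C (v i) * MvPolynomial.X 0) ^ 2 - 1) := by
  unfold QN
  rw [map_qv]
  simp only [linN_X]
  rfl

/-- The maps `f_v : z ↦ z v`, for `P(v) = 1`. -/
noncomputable def fmapN (v : Fin n → ℂ) (hv : pv v = 1) :
    (CN n).toScheme ⟶ (XN n).toScheme :=
  IsOpenImmersion.lift (XN n).ι ((CN n).ι ≫ Spec.map (CommRingCat.ofHom (linN v))) (by
    rintro _ ⟨y, rfl⟩
    rw [Scheme.Opens.range_ι]
    show (Spec.map (CommRingCat.ofHom (linN v))) ((CN n).ι y) ∈ XN n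
    have hy : (CN n).ι y ∈ CN n := y.2
    rw [mem_CN] at hy
    rw [mem_XN, mem_specMap, mem_specMap, mem_specMap, map_sub, map_pow, map_one, linN_P v hv,
      linN_Q, ← pow_mul, mul_comm (n * n) 2]
    refine ⟨hy, ?_⟩
    by_contra hcon
    push Not at hcon
    obtain ⟨h1, h2⟩ := hcon
    have h3 : (MvPolynomial.X 0 : RR 1) ∈ ((CN n).ι y).asIdeal := ((CN n).ι y).2.mem_of_pow_mem _ h1
    have hp := ((CN n).ι y).2
    rw [hp.prod_mem_iff] at h2
    obtain ⟨i, -, h2⟩ := h2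
    apply ((CN n).ι y).2.ne_top
    rw [Ideal.eq_top_iff_one]
    have h4 := Ideal.sub_mem _ (Ideal.mul_mem_left _
      (MvPolynomial.C (v i) ^ 2 * MvPolynomial.X 0 : RR 1) h3) h2
    convert h4 using 1
    ring)

lemma fmapN_ι (v : Fin n → ℂ) (hv : pv v = 1) :
    fmapN v hv ≫ (XN n).ι = (CN n).ι ≫ Spec.map (CommRingCat.ofHom (linN v)) :=
  IsOpenImmersion.lift_fac _ _ _

lemma fmapN_over (v : Fin n → ℂ) (hv : pv v = 1) :
    fmapN v hv ≫ (XN n).ι ≫ aa n = (CN n).ι ≫ aa 1 := by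
  rw [← Category.assoc, fmapN_ι, Category.assoc]
  unfold aa
  rw [← Spec.map_comp]
  congr 2
  ext c
  simp [linN_C, MvPolynomial.algebraMap_eq]

lemma ptA_linN (z : ℂ) (v : Fin n → ℂ) :
    ptA (fun _ => z) ≫ Spec.map (CommRingCat.ofHom (linN v)) = ptA fun i => v i * z := by
  unfold ptA
  rw [← Spec.map_comp]
  congr 1
  ext i
  · simp [linN_C]
  · simp [linN_X]

lemma zero_pow_ne (hn : 2 ≤ n) : (0 : ℂ) ^ (2 * (n * n)) ≠ 1 := by
  have h : 2 * (n * n) ≠ 0 := by positivity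
  rw [zero_pow h]
  exact zero_ne_one

lemma ptCN_fmapN (hn : 2 ≤ n) (v : Fin n → ℂ) (hv : pv v = 1) :
    ptCN 0 (zero_pow_ne hn) ≫ fmapN v hv = originN hn := by
  rw [← cancel_mono (XN n).ι, Category.assoc, fmapN_ι, ← Category.assoc, ptCN_ι, ptA_linN,
    originN_ι]
  simp

lemma two_pow_ne (hn : 2 ≤ n) : (2 : ℂ) ^ (2 * (n * n)) ≠ 1 := by
  have h : 2 * (n * n) ≠ 0 := by positivity
  have h2 : (1 : ℕ) < 2 ^ (2 * (n * n)) := Nat.one_lt_pow h (by norm_num)
  intro h3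
  have h4 : (2 : ℕ) ^ (2 * (n * n)) = 1 := by exact_mod_cast h3
  omega

lemma fmapN_injective (hn : 2 ≤ n) {v v' : Fin n → ℂ} {hv : pv v = 1} {hv' : pv v' = 1}
    (h : fmapN v hv = fmapN v' hv') : v = v' := by
  have h1 : ptCN 2 (two_pow_ne hn) ≫ fmapN v hv ≫ (XN n).ι =
      ptCN 2 (two_pow_ne hn) ≫ fmapN v' hv' ≫ (XN n).ι := by
    rw [h]
  rw [fmapN_ι, fmapN_ι, ← Category.assoc, ← Category.assoc, ptCN_ι, ptA_linN, ptA_linN] at h1
  have h2 := ptA_injective h1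
  funext i
  have h3 := congrFun h2 i
  simpa using h3

/-- The direction `(k, 1, 2, …, n - 1)`. -/
noncomputable def wv (n : ℕ) (k : ℂ) : Fin n → ℂ := fun i => if i.1 = 0 then k else (i.1 : ℂ)

lemma pv_wv {k : ℂ} (hk : ∀ i : ℕ, k ≠ i) : pv (wv n k) ≠ 0 := by
  unfold pv
  rw [Finset.prod_ne_zero_iff]
  intro i _
  rw [Finset.prod_ne_zero_iff]
  intro j _
  unfold lv
  by_cases hij : i = j
  · rw [if_pos hij, sub_zero]
    unfold wv
    split_ifs with h0
    · exact_mod_cast hk 0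
    · exact_mod_cast h0
  · rw [if_neg hij, sub_ne_zero]
    have hij' : i.1 ≠ j.1 := fun h => hij (Fin.ext h)
    unfold wv
    split_ifs with h0 h1 h1
    · exact absurd (h0.trans h1.symm) hij'
    · exact hk _
    · exact (hk _).symm
    · exact_mod_cast hij'

/-- For each direction there is a multiple with `P = 1`. -/
lemma exists_scale {a : Fin n → ℂ} (hn : 2 ≤ n) (ha : pv a ≠ 0) :
    ∃ ζ : ℂ, ζ ≠ 0 ∧ ζ ^ (n * n) = pv a ∧ pv (fun i => a i * ζ⁻¹) = 1 := by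
  have h : n * n ≠ 0 := by positivity
  obtain ⟨ζ, hζ⟩ := IsAlgClosed.exists_pow_nat_eq (pv a) (n := n * n) (by positivity)
  have h0 : ζ ≠ 0 := by
    rintro rfl
    rw [zero_pow h] at hζ
    exact ha hζ.symm
  refine ⟨ζ, h0, hζ, ?_⟩
  rw [pv_mul, inv_pow, hζ, mul_inv_cancel₀ ha]

lemma exists_vk (hn : 2 ≤ n) (k : ℂ) (hk : ∀ i : ℕ, k ≠ i) :
    ∃ v : Fin n → ℂ, pv v = 1 ∧ v ⟨1, by omega⟩ ≠ 0 ∧
      v ⟨0, by omega⟩ = k * v ⟨1, by omega⟩ := by
  obtain ⟨ζ, h0, -, h1⟩ := exists_scale hn (pv_wv (n := n) hk)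
  refine ⟨_, h1, ?_, ?_⟩
  · simp [wv, h0]
  · simp [wv]

lemma uncountable_maps (hn : 2 ≤ n) :
    ¬ {f : (CN n).toScheme ⟶ (XN n).toScheme | f ≫ ((XN n).ι ≫ aa n) = (CN n).ι ≫ aa 1 ∧
      ptCN 0 (zero_pow_ne hn) ≫ f = originN hn}.Countable := by
  intro hc
  choose! v hv hv1 hv2 using exists_vk hn
  have h1 : {k : ℂ | ∀ i : ℕ, k ≠ i}.Countable := by
    have hcc : Countable {f : (CN n).toScheme ⟶ (XN n).toScheme |
      f ≫ ((XN n).ι ≫ aa n) = (CN n).ι ≫ aa 1 ∧ ptCN 0 (zero_pow_ne hn) ≫ f = originN hn} := hc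
    let F : {k : ℂ // ∀ i : ℕ, k ≠ i} → {f : (CN n).toScheme ⟶ (XN n).toScheme |
      f ≫ ((XN n).ι ≫ aa n) = (CN n).ι ≫ aa 1 ∧ ptCN 0 (zero_pow_ne hn) ≫ f = originN hn} :=
      fun k => ⟨fmapN (v k) (hv k k.2), fmapN_over _ _, ptCN_fmapN hn _ _⟩
    have hF : Function.Injective F := by
      rintro ⟨k, hk⟩ ⟨k', hk'⟩ h
      have h0 : fmapN (v k) (hv k hk) = fmapN (v k') (hv k' hk') := congrArg Subtype.val h
      have h2 := fmapN_injective hn h0
      have h3 := hv2 k hk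
      rw [h2, hv2 k' hk'] at h3
      exact Subtype.ext (mul_right_cancel₀ (hv1 k' hk') h3).symm
    exact hF.countable
  have h2 : (Set.univ : Set ℂ) = {k : ℂ | ∀ i : ℕ, k ≠ i} ∪ Set.range (fun i : ℕ => (i : ℂ)) := by
    ext k
    simp only [Set.mem_univ, Set.mem_union, Set.mem_ofPred_eq, Set.mem_range, true_iff]
    by_cases h : ∀ i : ℕ, k ≠ i
    · exact Or.inl h
    · push Not at h
      obtain ⟨i, hi⟩ := h
      exact Or.inr ⟨i, hi.symm⟩
  have h3 : (Set.univ : Set ℂ).Countable := by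
    rw [h2]
    exact h1.union (Set.countable_range _)
  exact not_countable_complex h3

/-- The dense open set `P ≠ 0` of the variety. -/
noncomputable def UN (n : ℕ) : (XN n).toScheme.Opens :=
  (XN n).ι ⁻¹ᵁ PrimeSpectrum.basicOpen (PN n)

lemma ev_PN (x : SpecC ⟶ (XN n).toScheme) : ev x (PN n) = pv (co x) := by
  unfold PN
  rw [map_pv]
  rfl

lemma ev_QN (x : SpecC ⟶ (XN n).toScheme) : ev x (QN n) = qv (co x) := by
  unfold QN
  rw [map_qv]
  rfl

lemma mem_of_ptN (x : SpecC ⟶ (XN n).toScheme) :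
    pv (co x) ^ 2 ≠ 1 ∧ (pv (co x) ≠ 0 ∨ qv (co x) ≠ 0) := by
  obtain ⟨y⟩ : Nonempty SpecC := inferInstance
  have h1 : (x ≫ (XN n).ι) y ∈ XN n := (x y).2
  rw [← map_ev, mem_XN, mem_specMap, mem_specMap, mem_specMap, mem_pt, mem_pt, mem_pt, map_sub,
    map_pow, map_one, ev_PN, ev_QN] at h1
  exact ⟨fun h => h1.1 (sub_eq_zero.2 h), h1.2⟩

/-- The pointed maps dominate. -/
lemma covering (hn : 2 ≤ n) (y : SpecC ⟶ (XN n).toScheme)
    (hy : y ≫ ((XN n).ι ≫ aa n) = 𝟙 SpecC) (hU : ⊤ ≤ y ⁻¹ᵁ UN n) :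
    ∃ (f : (CN n).toScheme ⟶ (XN n).toScheme) (c' : SpecC ⟶ (CN n).toScheme),
      f ≫ ((XN n).ι ≫ aa n) = (CN n).ι ≫ aa 1 ∧ ptCN 0 (zero_pow_ne hn) ≫ f = originN hn ∧
      c' ≫ ((CN n).ι ≫ aa 1) = 𝟙 SpecC ∧ c' ≫ f = y := by
  have h0 : pv (co y) ≠ 0 := by
    obtain ⟨s⟩ : Nonempty SpecC := inferInstance
    have h1 : (y ≫ (XN n).ι) s ∈ (PrimeSpectrum.basicOpen (PN n) : (AA n).Opens) :=
      hU (Set.mem_univ s)
    have h2 : PN n ∉ ((y ≫ (XN n).ι) s).asIdeal := h1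
    rw [← map_ev, mem_specMap, mem_pt, ev_PN] at h2
    exact h2
  obtain ⟨ζ, hζ, hp, hv⟩ := exists_scale hn h0
  have hz : ζ ^ (2 * (n * n)) ≠ 1 := by
    rw [mul_comm, pow_mul, hp]
    exact (mem_of_ptN y).1
  refine ⟨fmapN _ hv, ptCN ζ hz, fmapN_over _ _, ptCN_fmapN hn _ _, ?_, ?_⟩
  · rw [← Category.assoc, ptCN_ι, ptA_over]
  · rw [← cancel_mono (XN n).ι, Category.assoc, fmapN_ι, ← Category.assoc, ptCN_ι, ptA_linN,
      pt_eq y hy]
    congr 1
    funext i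
    rw [mul_assoc, inv_mul_cancel₀ hζ, mul_one]

theorem brody_XN : BrodyHyperbolic ((XN n).ι ≫ aa n) := by
  intro φ hφ
  have hd : ∀ F : RR n, Differentiable ℂ (fun t => ev (φ t) F) := by
    intro F t₀
    obtain ⟨g, hg, hg'⟩ := hφ.holomorphic ⊤ (secU (XN n) F) t₀ le_rfl
    refine hg.differentiableAt.congr_of_eventuallyEq ?_
    filter_upwards [hg'] with t ht
    obtain ⟨h, ht⟩ := ht
    rw [← ht, valueAt_secU]
  intro t t'
  have h := const_of_avoid_n (fun t => co (φ t)) (fun i => hd _) (fun t => (mem_of_ptN (φ t)).1)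
    (fun t => (mem_of_ptN (φ t)).2) t t'
  rw [← cancel_mono (XN n).ι, pt_eq _ (hφ.isPoint t), pt_eq _ (hφ.isPoint t'), h]

/-- The set `P ≠ 0` has a point. -/
lemma UN_nonempty (hn : 2 ≤ n) : (UN n : Set (XN n).toScheme).Nonempty := by
  have hk : ∀ i : ℕ, (1 / 2 : ℂ) ≠ i := by
    intro i hi
    have : (1 : ℂ) = 2 * i := by rw [← hi]; norm_num
    have h3 : (1 : ℕ) = 2 * i := by exact_mod_cast this
    omega
  obtain ⟨v, hv, -, -⟩ := exists_vk hn (1 / 2) hk
  have h2 : pv (fun i => v i * 2) = 2 ^ (n * n) := by rw [pv_mul, hv, one_mul]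
  have h1 : pv (fun i => v i * 2) ^ 2 ≠ 1 := by
    rw [h2, ← pow_mul, mul_comm (n * n) 2]
    exact two_pow_ne hn
  have h3 : pv (fun i => v i * 2) ≠ 0 := by
    rw [h2]; exact pow_ne_zero _ two_ne_zero
  obtain ⟨s⟩ : Nonempty SpecC := inferInstance
  refine ⟨ptXN (fun i => v i * 2) h1 (Or.inl h3) s, ?_⟩
  show (XN n).ι (ptXN (fun i => v i * 2) h1 (Or.inl h3) s) ∈ PrimeSpectrum.basicOpen (PN n)
  have h4 : (XN n).ι (ptXN (fun i => v i * 2) h1 (Or.inl h3) s) = (ptA fun i => v i * 2) s := by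
    rw [← ptXN_ι (fun i => v i * 2) h1 (Or.inl h3)]
    rfl
  rw [h4]
  show PN n ∉ ((ptA fun i => v i * 2) s).asIdeal
  rw [mem_ptA]
  simp only [PN, map_pv, MvPolynomial.eval_X]
  exact h3

end Pool.Agent.Y823.LV
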